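import Mathlib

/-! The abstract structure which a union embedding of `K_{3k}` on `k` pages produces: a colouring of the chords of
the regular `3k`-gon (positions modulo `3k`) with three local properties. -/

set_option autoImplicit false

namespace Pool.Agent.Lib.MP_a966e6_co.PNU

/-- `c x y` = page of the chord `x y` of the regular `3k`-gon (positions modulo `3k`). -/
structure TCol (k : ℕ) (c : ℕ → ℕ → ℕ) : Prop where
  /-- there are `k` colours -/
  lt : ∀ x y, x < 3 * k → y < 3 * k → x ≠ y → c x y < k
  symm : ∀ x y, c x y = c y x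
  per : ∀ x y, c x y = c (x % (3 * k)) (y % (3 * k))
  /-- the `k` chords `(v, v + d)`, `1 ≤ d ≤ k`, have distinct colours -/
  t2 : ∀ v d e, 1 ≤ d → d < e → e ≤ k → c v (v + d) ≠ c v (v + e)
  /-- the `k` chords `(v - d, v)`, `1 ≤ d ≤ k`, have distinct colours -/
  t2' : ∀ v d e, 1 ≤ d → d < e → e ≤ k → c v (v + (3 * k - d)) ≠ c v (v + (3 * k - e))
  /-- consecutive chords of one colour at `v` span a triangle of this colour -/
  t3 : ∀ v y z, 1 ≤ y → y < z → z < 3 * k → c v (v + y) = c v (v + z) →
    (∀ w, y < w → w < z → c v (v + w) ≠ c v (v + y)) → c (v + y) (v + z) = c v (v + y)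
  /-- crossing chords of one colour lie in different components -/
  t4 : ∀ a b e d, a < b → b < e → e < d → d < a + 3 * k → c a e = c b d →
    c a b ≠ c a e ∧ c b e ≠ c a e ∧ c e d ≠ c a e ∧ c a d ≠ c a e

end Pool.Agent.Lib.MP_a966e6_co.PNU
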