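import Mathlib

/-! A small checker for resolution chains on clauses given by bit masks. -/

set_option autoImplicit false

namespace Pool.Agent.Lib.MP_a966e6_co.PNU.Neg

noncomputable section

/-- the clause with positive literals `P` and negative literals `N` (bit masks) holds -/
def Sat (α : ℕ → Prop) (P N : ℕ) : Prop :=
  ∃ i, (P.testBit i = true ∧ α i) ∨ (N.testBit i = true ∧ ¬ α i)

/-- a binary tree of clauses -/
inductive Tr where
  | lf : Tr
  | nd : ℕ → ℕ → Tr → Tr → Tr

/-- all clauses of the tree hold -/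
def Tr.All (α : ℕ → Prop) : Tr → Prop
  | .lf => True
  | .nd P N l r => Sat α P N ∧ l.All α ∧ r.All α

/-- evaluates `x` before `f` is applied -/
def force (x : ℕ) (f : ℕ → Bool) : Bool := Nat.rec (f 0) (fun n _ => f (n + 1)) x

theorem force_eq (x : ℕ) (f : ℕ → Bool) : force x f = f x := by
  cases x <;> rfl

/-- looks up a clause -/
def get (t : Tr) : ℕ → (ℕ → ℕ → Bool) → Bool :=
  Tr.rec (fun _ _ => false)
    (fun P N _ _ gl gr i k =>
      Bool.rec (force (Nat.div i 2) fun j => Bool.rec (gl j k) (gr j k) (Nat.beq (Nat.mod i 2) 1))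
        (k P N) (Nat.beq i 1)) t

theorem get_sound (α : ℕ → Prop) (t : Tr) (ht : t.All α) (i : ℕ) (k : ℕ → ℕ → Bool)
    (h : get t i k = true) : ∃ P N, Sat α P N ∧ k P N = true := by
  induction t generalizing i with
  | lf => exact absurd h (by simp [get])
  | nd P N l r hl hr =>
    obtain ⟨h1, h2, h3⟩ := ht
    have e : get (.nd P N l r) i k = Bool.rec (force (Nat.div i 2) fun j =>
      Bool.rec (get l j k) (get r j k) (Nat.beq (Nat.mod i 2) 1)) (k P N) (Nat.beq i 1) := rfl
    rw [e, force_eq] at h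
    cases hb : Nat.beq i 1 with
    | true =>
      rw [hb] at h
      exact ⟨P, N, h1, h⟩
    | false =>
      rw [hb] at h
      cases hb2 : Nat.beq (Nat.mod i 2) 1 with
      | true =>
        rw [hb2] at h
        exact hr h3 _ h
      | false =>
        rw [hb2] at h
        exact hl h2 _ h

/-- inserts a clause -/
def ins (t : Tr) : ℕ → ℕ → ℕ → (Tr → Bool) → Bool :=
  Tr.rec (fun _ P N k => k (.nd P N .lf .lf))
    (fun P0 N0 l r il ir i P N k =>
      Bool.rec (il (Nat.div i 2) P N fun l' => k (.nd P0 N0 l' r))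
        (ir (Nat.div i 2) P N fun r' => k (.nd P0 N0 l r')) (Nat.beq (Nat.mod i 2) 1)) t

theorem ins_sound (α : ℕ → Prop) (t : Tr) (ht : t.All α) (i P N : ℕ) (hs : Sat α P N)
    (k : Tr → Bool) (h : ins t i P N k = true) : ∃ t' : Tr, t'.All α ∧ k t' = true := by
  induction t generalizing i k with
  | lf => exact ⟨.nd P N .lf .lf, ⟨hs, trivial, trivial⟩, h⟩
  | nd P0 N0 l r hl hr =>
    obtain ⟨h1, h2, h3⟩ := ht
    have e : ins (.nd P0 N0 l r) i P N k =
      Bool.rec (ins l (Nat.div i 2) P N fun l' => k (.nd P0 N0 l' r))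
        (ins r (Nat.div i 2) P N fun r' => k (.nd P0 N0 l r')) (Nat.beq (Nat.mod i 2) 1) := rfl
    rw [e] at h
    cases hb2 : Nat.beq (Nat.mod i 2) 1 with
    | true =>
      rw [hb2] at h
      obtain ⟨t', ht', hk⟩ := hr h3 (Nat.div i 2) (fun r' => k (.nd P0 N0 l r')) h
      exact ⟨Tr.nd P0 N0 l t', ⟨h1, h2, ht'⟩, hk⟩
    | false =>
      rw [hb2] at h
      obtain ⟨t', ht', hk⟩ := hl h2 (Nat.div i 2) (fun l' => k (.nd P0 N0 l' r)) h
      exact ⟨Tr.nd P0 N0 t' r, ⟨h1, ht', h3⟩, hk⟩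

/-- one resolution step -/
def step (k : ℕ → ℕ → Bool) (P N P2 N2 : ℕ) : Bool :=
  force (Nat.land P N2) fun a => force (Nat.land N P2) fun b => force (Nat.add a b) fun x =>
    Bool.rec false
      (force (Nat.lor (Nat.xor P a) (Nat.xor P2 b)) fun P' =>
        force (Nat.lor (Nat.xor N b) (Nat.xor N2 a)) fun N' => k P' N')
      (Nat.beq (Nat.add (Nat.land x (Nat.sub x 1)) (Nat.xor x (Nat.lor a b))) 0)

theorem two_pow_cases (a b : ℕ)
    (h : ((a + b) &&& (a + b - 1)) + ((a + b) ^^^ (a ||| b)) = 0) :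
    (a = 0 ∧ b = 0) ∨ (∃ i, a = 2 ^ i ∧ b = 0) ∨ (∃ i, a = 0 ∧ b = 2 ^ i) := by
  by_cases hx : a + b = 0
  · left
    omega
  · right
    have h1 : ((a + b) &&& (a + b - 1)) = 0 := by omega
    have h2 : (a + b) = (a ||| b) := by
      have : ((a + b) ^^^ (a ||| b)) = 0 := by omega
      exact Nat.xor_eq_zero_iff.1 this
    obtain ⟨i, hi⟩ := (Nat.and_sub_one_eq_zero_iff_isPowerOfTwo hx).1 h1
    have h3 : (a ||| b).testBit i = true := by
      rw [← h2, hi]
      exact Nat.testBit_two_pow_self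
    rw [Nat.testBit_or, Bool.or_eq_true] at h3
    rcases h3 with ht | ht
    · have := Nat.ge_two_pow_of_testBit ht
      left
      exact ⟨i, by omega, by omega⟩
    · have := Nat.ge_two_pow_of_testBit ht
      right
      exact ⟨i, by omega, by omega⟩

theorem testBit_xor_pow (P i j : ℕ) (hj : P.testBit j = true) (hne : j ≠ i) :
    (P ^^^ 2 ^ i).testBit j = true := by
  rw [Nat.testBit_xor, hj, Nat.testBit_two_pow_of_ne (Ne.symm hne)]
  rfl

theorem res_sound (α : ℕ → Prop) (P N P2 N2 i : ℕ) (h1 : Sat α P N) (h2 : Sat α P2 N2)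
    : Sat α ((P ^^^ 2 ^ i) ||| P2) (N ||| (N2 ^^^ 2 ^ i)) := by
  obtain ⟨j, hj⟩ := h1
  rcases hj with ⟨hj, hα⟩ | ⟨hj, hα⟩
  · by_cases hji : j = i
    · subst hji
      obtain ⟨l, hl⟩ := h2
      rcases hl with ⟨hl, hαl⟩ | ⟨hl, hαl⟩
      · exact ⟨l, Or.inl ⟨by rw [Nat.testBit_or, hl, Bool.or_true], hαl⟩⟩
      · have hlj : l ≠ j := by
          rintro rfl
          exact hαl hα
        exact ⟨l, Or.inr ⟨by rw [Nat.testBit_or, testBit_xor_pow _ _ _ hl hlj, Bool.or_true], hαl⟩⟩
    · exact ⟨j, Or.inl ⟨by rw [Nat.testBit_or, testBit_xor_pow _ _ _ hj hji, Bool.true_or], hα⟩⟩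
  · exact ⟨j, Or.inr ⟨by rw [Nat.testBit_or, hj, Bool.true_or], hα⟩⟩

theorem step_sound (α : ℕ → Prop) (k : ℕ → ℕ → Bool) (P N P2 N2 : ℕ) (h1 : Sat α P N)
    (h2 : Sat α P2 N2) (h : step k P N P2 N2 = true) : ∃ P' N', Sat α P' N' ∧ k P' N' = true := by
  unfold step at h
  rw [force_eq, force_eq, force_eq] at h
  change (Bool.rec false
      (force ((P ^^^ (P &&& N2)) ||| (P2 ^^^ (N &&& P2))) fun P' =>
        force ((N ^^^ (N &&& P2)) ||| (N2 ^^^ (P &&& N2))) fun N' => k P' N')
      (Nat.beq ((((P &&& N2) + (N &&& P2)) &&& ((P &&& N2) + (N &&& P2) - 1)) +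
        (((P &&& N2) + (N &&& P2)) ^^^ ((P &&& N2) ||| (N &&& P2)))) 0) : Bool) = true at h
  cases hb : Nat.beq ((((P &&& N2) + (N &&& P2)) &&& ((P &&& N2) + (N &&& P2) - 1)) +
        (((P &&& N2) + (N &&& P2)) ^^^ ((P &&& N2) ||| (N &&& P2)))) 0 with
  | false =>
    rw [hb] at h
    exact absurd h (by simp)
  | true =>
    rw [hb] at h
    simp only [force_eq] at h
    refine ⟨_, _, ?_, h⟩
    rcases two_pow_cases _ _ (Nat.eq_of_beq_eq_true hb) with ⟨ha, hb'⟩ | ⟨i, ha, hb'⟩ | ⟨i, ha, hb'⟩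
    · rw [ha, hb', Nat.xor_zero, Nat.xor_zero, Nat.xor_zero, Nat.xor_zero]
      obtain ⟨j, ⟨hj, hα⟩ | ⟨hj, hα⟩⟩ := h1
      · exact ⟨j, Or.inl ⟨by rw [Nat.testBit_or, hj, Bool.true_or], hα⟩⟩
      · exact ⟨j, Or.inr ⟨by rw [Nat.testBit_or, hj, Bool.true_or], hα⟩⟩
    · rw [ha, hb', Nat.xor_zero, Nat.xor_zero]
      exact res_sound α P N P2 N2 i h1 h2
    · rw [ha, hb', Nat.xor_zero, Nat.xor_zero]
      have := res_sound α P2 N2 P N i h2 h1
      rw [Nat.lor_comm P, Nat.lor_comm (N ^^^ 2 ^ i)]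
      exact this

/-- a resolution chain; the hints are the digits of `h` in base `2 ^ 14` -/
def chain (t : Tr) (k : ℕ → ℕ → Bool) (n : ℕ) : ℕ → ℕ → ℕ → Bool :=
  Nat.rec (fun _ P N => k P N)
    (fun _ ih h P N => force (Nat.mod h 16384) fun i => force (Nat.div h 16384) fun h' =>
      get t i (step (fun P' N' => ih h' P' N') P N)) n

theorem chain_sound (α : ℕ → Prop) (t : Tr) (ht : t.All α) (k : ℕ → ℕ → Bool) (n h P N : ℕ)
    (hs : Sat α P N) (hc : chain t k n h P N = true) : ∃ P' N', Sat α P' N' ∧ k P' N' = true := by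
  induction n generalizing h P N with
  | zero => exact ⟨P, N, hs, hc⟩
  | succ n ih =>
    have e : chain t k (n + 1) h P N = force (Nat.mod h 16384) fun i => force (Nat.div h 16384) fun h' =>
      get t i (step (fun P' N' => chain t k n h' P' N') P N) := rfl
    rw [e, force_eq, force_eq] at hc
    obtain ⟨P2, N2, h2, h3⟩ := get_sound α t ht _ _ hc
    obtain ⟨P', N', h4, h5⟩ := step_sound α _ P N P2 N2 hs h2 h3
    exact ih _ _ _ h4 h5

/-- runs a list of chains; the results are inserted in the tree -/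
def run (L : List ℕ) : Tr → ℕ → Bool :=
  List.rec (fun _ _ => false)
    (fun h _ ih t n => force (Nat.mod (Nat.div h 16384) 16384) fun i =>
      force (Nat.mod h 16384) fun c => force (Nat.div h 268435456) fun h' =>
      get t i
        (chain t
          (fun P N => Bool.rec (ins t n P N fun t' => force (Nat.add n 1) fun m => ih t' m) true
            (Nat.beq (Nat.add P N) 0)) c h')) L

theorem run_sound (α : ℕ → Prop) (L : List ℕ) (t : Tr) (n : ℕ) (ht : t.All α)
    (h : run L t n = true) : False := by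
  induction L generalizing t n with
  | nil => exact absurd h (by simp [run])
  | cons a L ih =>
    have e : run (a :: L) t n = force (Nat.mod (Nat.div a 16384) 16384) fun i =>
      force (Nat.mod a 16384) fun c => force (Nat.div a 268435456) fun h' =>
      get t i
        (chain t
          (fun P N => Bool.rec (ins t n P N fun t' => force (Nat.add n 1) fun m => run L t' m) true
            (Nat.beq (Nat.add P N) 0)) c h') := rfl
    rw [e, force_eq, force_eq, force_eq] at h
    obtain ⟨P, N, h1, h2⟩ := get_sound α t ht _ _ h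
    obtain ⟨P', N', h3, h4⟩ := chain_sound α t ht _ _ _ P N h1 h2
    cases hb : Nat.beq (Nat.add P' N') 0 with
    | true =>
      have hz : P' + N' = 0 := Nat.eq_of_beq_eq_true hb
      obtain ⟨i, hi | hi⟩ := h3
      · have hP : P' = 0 := by omega
        rw [hP, Nat.zero_testBit] at hi
        exact absurd hi.1 (by simp)
      · have hN : N' = 0 := by omega
        rw [hN, Nat.zero_testBit] at hi
        exact absurd hi.1 (by simp)
    | false =>
      rw [hb] at h4
      obtain ⟨t', ht', h5⟩ := ins_sound α t ht n P' N' h3 _ h4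
      rw [force_eq] at h5
      exact ih t' _ ht' h5

end

end Pool.Agent.Lib.MP_a966e6_co.PNU.Neg
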