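import Pool.Agent.Lib.MP_a966e6_co.PNU.Neg.Def
import Pool.Agent.Lib.MP_a966e6_co.PNU.Neg.Res
import Pool.Agent.Lib.MP_a966e6_co.PNU.Neg5.Wlog

/-! The clauses which every colouring `TCol k c` satisfies, and a refutation checker for small `k`. -/

set_option autoImplicit false

namespace Pool.Agent.Lib.MP_a966e6_co.PNU.Neg

open Pool.Agent.Lib.MP_a966e6_co.PNU Pool.Agent.Lib.MP_a966e6_co.PNU.Neg5

/-- a literal `(s, u, v, p)`: the chord `u v` has (`s = true`) or has not the colour of the chord `(0, p + 1)` -/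
abbrev Lit := Bool × ℕ × ℕ × ℕ

/-- the number of the variable: the chord `u v` has the colour of the chord `(0, p + 1)` -/
def vi (k u v p : ℕ) : ℕ :=
  if u % (3 * k) < v % (3 * k) then ((u % (3 * k)) * (3 * k) + v % (3 * k)) * k + p
  else ((v % (3 * k)) * (3 * k) + u % (3 * k)) * k + p

/-- the valuation given by a colouring -/
def val (k : ℕ) (c : ℕ → ℕ → ℕ) (i : ℕ) : Prop := c (i / k / (3 * k)) (i / k % (3 * k)) = c 0 (i % k + 1)

theorem val_vi {k : ℕ} {c : ℕ → ℕ → ℕ} (h : TCol k c) (u v p : ℕ) (hp : p < k) :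
    val k c (vi k u v p) ↔ c u v = c 0 (p + 1) := by
  have hk : 0 < k := by omega
  have key : ∀ a b, a < 3 * k → b < 3 * k → (val k c ((a * (3 * k) + b) * k + p) ↔ c a b = c 0 (p + 1)) := by
    intro a b _ hb
    unfold val
    have e1 : ((a * (3 * k) + b) * k + p) / k = a * (3 * k) + b := by
      rw [mul_comm, Nat.mul_add_div hk, Nat.div_eq_of_lt hp, Nat.add_zero]
    have e2 : ((a * (3 * k) + b) * k + p) % k = p := by
      rw [mul_comm, Nat.mul_add_mod, Nat.mod_eq_of_lt hp]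
    have e3 : (a * (3 * k) + b) / (3 * k) = a := by
      rw [mul_comm, Nat.mul_add_div (by omega), Nat.div_eq_of_lt hb, Nat.add_zero]
    have e4 : (a * (3 * k) + b) % (3 * k) = b := by
      rw [mul_comm, Nat.mul_add_mod, Nat.mod_eq_of_lt hb]
    rw [e1, e2, e3, e4]
  have hu := Nat.mod_lt u (show 0 < 3 * k by omega)
  have hv := Nat.mod_lt v (show 0 < 3 * k by omega)
  unfold vi
  split_ifs
  · rw [key _ _ hu hv, ← h.per]
  · rw [key _ _ hv hu, ← h.per, h.symm]

/-- the literal holds -/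
def LSat (k : ℕ) (c : ℕ → ℕ → ℕ) (l : Lit) : Prop :=
  l.2.2.2 < k ∧ ((l.1 = true ∧ c l.2.1 l.2.2.1 = c 0 (l.2.2.2 + 1)) ∨
    (l.1 = false ∧ c l.2.1 l.2.2.1 ≠ c 0 (l.2.2.2 + 1)))

/-- the bit masks of a list of literals -/
def msk (k : ℕ) : List Lit → ℕ → ℕ → (ℕ → ℕ → Bool) → Bool
  | [], P, N, f => f P N
  | (true, u, v, p) :: L, P, N, f => msk k L (P ||| 2 ^ vi k u v p) N f
  | (false, u, v, p) :: L, P, N, f => msk k L P (N ||| 2 ^ vi k u v p) f

theorem msk_sound {k : ℕ} {c : ℕ → ℕ → ℕ} (h : TCol k c) (L : List Lit) (P N : ℕ) (f : ℕ → ℕ → Bool)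
    (hs : Sat (val k c) P N ∨ ∃ l ∈ L, LSat k c l) (hf : msk k L P N f = true) :
    ∃ P' N', Sat (val k c) P' N' ∧ f P' N' = true := by
  induction L generalizing P N with
  | nil =>
    rcases hs with hs | ⟨l, hl, _⟩
    · exact ⟨P, N, hs, hf⟩
    · exact absurd hl (by simp)
  | cons a L ih =>
    obtain ⟨s, u, v, p⟩ := a
    cases s with
    | true =>
      refine ih (P ||| 2 ^ vi k u v p) N ?_ hf
      rcases hs with ⟨i, ⟨hi, hα⟩ | ⟨hi, hα⟩⟩ | ⟨l, hl, hl2⟩
      · exact Or.inl ⟨i, Or.inl ⟨by rw [Nat.testBit_or, hi, Bool.true_or], hα⟩⟩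
      · exact Or.inl ⟨i, Or.inr ⟨hi, hα⟩⟩
      · rcases List.mem_cons.1 hl with rfl | hl
        · obtain ⟨h1, ⟨_, h2⟩ | ⟨h2, _⟩⟩ := hl2
          · refine Or.inl ⟨vi k u v p, Or.inl ⟨?_, (val_vi h u v p h1).2 h2⟩⟩
            rw [Nat.testBit_or, Nat.testBit_two_pow_self, Bool.or_true]
          · exact absurd h2 (by simp)
        · exact Or.inr ⟨l, hl, hl2⟩
    | false =>
      refine ih P (N ||| 2 ^ vi k u v p) ?_ hf
      rcases hs with ⟨i, ⟨hi, hα⟩ | ⟨hi, hα⟩⟩ | ⟨l, hl, hl2⟩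
      · exact Or.inl ⟨i, Or.inl ⟨hi, hα⟩⟩
      · exact Or.inl ⟨i, Or.inr ⟨by rw [Nat.testBit_or, hi, Bool.true_or], hα⟩⟩
      · rcases List.mem_cons.1 hl with rfl | hl
        · obtain ⟨h1, ⟨h2, _⟩ | ⟨_, h2⟩⟩ := hl2
          · exact absurd h2 (by simp)
          · refine Or.inl ⟨vi k u v p, Or.inr ⟨?_, fun h3 => h2 ((val_vi h u v p h1).1 h3)⟩⟩
            rw [Nat.testBit_or, Nat.testBit_two_pow_self, Bool.or_true]
        · exact Or.inr ⟨l, hl, hl2⟩

/-- names of clauses -/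
inductive Cl where
  | amo (u v p q : ℕ) : Cl
  | alo (u v : ℕ) : Cl
  | t2 (v d e p : ℕ) : Cl
  | t2' (v d e p : ℕ) : Cl
  | a2 (v p : ℕ) : Cl
  | a2' (v p : ℕ) : Cl
  | t3 (v y z p : ℕ) : Cl
  | t4 (a b e d p s : ℕ) : Cl
  | un (d : ℕ) : Cl

/-- the literals of a clause -/
def Cl.lits (k : ℕ) : Cl → List Lit
  | .amo u v p q => [(false, u, v, p), (false, u, v, q)]
  | .alo u v => (List.range k).map fun p => (true, u, v, p)
  | .t2 v d e p => [(false, v, v + d, p), (false, v, v + e, p)]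
  | .t2' v d e p => [(false, v, v + (3 * k - d), p), (false, v, v + (3 * k - e), p)]
  | .a2 v p => (List.range k).map fun d => (true, v, v + (d + 1), p)
  | .a2' v p => (List.range k).map fun d => (true, v, v + (3 * k - (d + 1)), p)
  | .t3 v y z p => (false, v, v + y, p) :: (false, v, v + z, p) :: (true, v + y, v + z, p) ::
      (List.range (z - y - 1)).map fun w => (true, v, v + (y + (w + 1)), p)
  | .t4 a b e d p s => [(false, a, e, p), (false, b, d, p),
      if s = 0 then (false, a, b, p) else if s = 1 then (false, b, e, p) else if s = 2 then (false, e, d, p)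
      else (false, a, d, p)]
  | .un d => [(true, 0, d + 1, d)]

/-- the side conditions of a clause -/
def Cl.ok (k : ℕ) : Cl → Bool
  | .amo _ _ p q => decide (p < q) && decide (q < k)
  | .alo u v => decide (u < v) && decide (v < 3 * k)
  | .t2 _ d e p => decide (1 ≤ d) && decide (d < e) && decide (e ≤ k) && decide (p < k)
  | .t2' _ d e p => decide (1 ≤ d) && decide (d < e) && decide (e ≤ k) && decide (p < k)
  | .a2 _ p => decide (p < k)
  | .a2' _ p => decide (p < k)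
  | .t3 _ y z p => decide (1 ≤ y) && decide (y < z) && decide (z < 3 * k) && decide (p < k)
  | .t4 a b e d p _ => decide (a < b) && decide (b < e) && decide (e < d) && decide (d < a + 3 * k) &&
      decide (p < k)
  | .un d => decide (d < k)

theorem ex_out {k : ℕ} {c : ℕ → ℕ → ℕ} (h : TCol k c) (v p : ℕ) (hp : p < k) :
    ∃ d, d < k ∧ c v (v + (d + 1)) = p := by
  have hk : 0 < k := by omega
  let f : Fin k → Fin k := fun d => ⟨c v (v + (d.1 + 1)),
    lt' hk h _ _ (ne_mod _ _ (by omega) (by have := d.2; omega))⟩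
  have hi : Function.Injective f := by
    intro d e hde
    have h1 : c v (v + (d.1 + 1)) = c v (v + (e.1 + 1)) := congrArg Fin.val hde
    rcases lt_trichotomy d.1 e.1 with h2 | h2 | h2
    · exact absurd h1 (h.t2 v _ _ (by omega) (by omega) (by have := e.2; omega))
    · exact Fin.ext h2
    · exact absurd h1.symm (h.t2 v _ _ (by omega) (by omega) (by have := d.2; omega))
  obtain ⟨d, hd⟩ := (Finite.injective_iff_surjective.1 hi) ⟨p, hp⟩
  exact ⟨d.1, d.2, congrArg Fin.val hd⟩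

theorem ex_in {k : ℕ} {c : ℕ → ℕ → ℕ} (h : TCol k c) (v p : ℕ) (hp : p < k) :
    ∃ d, d < k ∧ c v (v + (3 * k - (d + 1))) = p := by
  have hk : 0 < k := by omega
  let f : Fin k → Fin k := fun d => ⟨c v (v + (3 * k - (d.1 + 1))),
    lt' hk h _ _ (ne_mod _ _ (by have := d.2; omega) (by omega))⟩
  have hi : Function.Injective f := by
    intro d e hde
    have h1 : c v (v + (3 * k - (d.1 + 1))) = c v (v + (3 * k - (e.1 + 1))) := congrArg Fin.val hde
    rcases lt_trichotomy d.1 e.1 with h2 | h2 | h2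
    · exact absurd h1 (h.t2' v _ _ (by omega) (by omega) (by have := e.2; omega))
    · exact Fin.ext h2
    · exact absurd h1.symm (h.t2' v _ _ (by omega) (by omega) (by have := d.2; omega))
  obtain ⟨d, hd⟩ := (Finite.injective_iff_surjective.1 hi) ⟨p, hp⟩
  exact ⟨d.1, d.2, congrArg Fin.val hd⟩

theorem q_lt {k : ℕ} {c : ℕ → ℕ → ℕ} (h : TCol k c) (p : ℕ) (hp : p < k) : c 0 (p + 1) < k := by
  have := lt' (by omega) h 0 (0 + (p + 1)) (ne_mod _ _ (by omega) (by omega))
  rwa [Nat.zero_add] at this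

theorem q_ne {k : ℕ} {c : ℕ → ℕ → ℕ} (h : TCol k c) (p q : ℕ) (hp : p < q) (hq : q < k) :
    c 0 (p + 1) ≠ c 0 (q + 1) := by
  have := h.t2 0 (p + 1) (q + 1) (by omega) (by omega) (by omega)
  rwa [Nat.zero_add, Nat.zero_add] at this

theorem two_neg {k : ℕ} {c : ℕ → ℕ → ℕ} (u v u' v' p p' : ℕ) (hp : p < k) (hp' : p' < k)
    (h : c u v = c 0 (p + 1) → c u' v' = c 0 (p' + 1) → False) :
    ∃ l ∈ ([(false, u, v, p), (false, u', v', p')] : List Lit), LSat k c l := by
  by_cases h1 : c u v = c 0 (p + 1)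
  · exact ⟨(false, u', v', p'), by simp, hp', Or.inr ⟨rfl, fun h2 => h h1 h2⟩⟩
  · exact ⟨(false, u, v, p), by simp, hp, Or.inr ⟨rfl, h1⟩⟩

theorem lits_sound {k : ℕ} {c : ℕ → ℕ → ℕ} (h : TCol k c) (x : Cl) (hx : x.ok k = true) :
    ∃ l ∈ x.lits k, LSat k c l := by
  cases x with
  | amo u v p q =>
    simp only [Cl.ok, Bool.and_eq_true, decide_eq_true_eq] at hx
    refine two_neg u v u v p q (by omega) (by omega) fun h1 h2 => ?_
    exact q_ne h p q hx.1 hx.2 (h1.symm.trans h2)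
  | alo u v =>
    simp only [Cl.ok, Bool.and_eq_true, decide_eq_true_eq] at hx
    have h1 : c u v < k := h.lt u v (by omega) hx.2 (by omega)
    obtain ⟨d, hd, hd'⟩ := ex_out h 0 _ h1
    rw [Nat.zero_add] at hd'
    refine ⟨(true, u, v, d), ?_, hd, Or.inl ⟨rfl, hd'.symm⟩⟩
    exact List.mem_map.2 ⟨d, List.mem_range.2 hd, rfl⟩
  | t2 v d e p =>
    simp only [Cl.ok, Bool.and_eq_true, decide_eq_true_eq] at hx
    refine two_neg v (v + d) v (v + e) p p (by omega) (by omega) fun h1 h2 => ?_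
    exact h.t2 v d e hx.1.1.1 hx.1.1.2 hx.1.2 (h1.trans h2.symm)
  | t2' v d e p =>
    simp only [Cl.ok, Bool.and_eq_true, decide_eq_true_eq] at hx
    refine two_neg v (v + (3 * k - d)) v (v + (3 * k - e)) p p (by omega) (by omega) fun h1 h2 => ?_
    exact h.t2' v d e hx.1.1.1 hx.1.1.2 hx.1.2 (h1.trans h2.symm)
  | a2 v p =>
    simp only [Cl.ok, decide_eq_true_eq] at hx
    obtain ⟨d, hd, hd'⟩ := ex_out h v _ (q_lt h p hx)
    refine ⟨(true, v, v + (d + 1), p), ?_, hx, Or.inl ⟨rfl, hd'⟩⟩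
    exact List.mem_map.2 ⟨d, List.mem_range.2 hd, rfl⟩
  | a2' v p =>
    simp only [Cl.ok, decide_eq_true_eq] at hx
    obtain ⟨d, hd, hd'⟩ := ex_in h v _ (q_lt h p hx)
    refine ⟨(true, v, v + (3 * k - (d + 1)), p), ?_, hx, Or.inl ⟨rfl, hd'⟩⟩
    exact List.mem_map.2 ⟨d, List.mem_range.2 hd, rfl⟩
  | t3 v y z p =>
    simp only [Cl.ok, Bool.and_eq_true, decide_eq_true_eq] at hx
    obtain ⟨⟨⟨hy, hyz⟩, hz⟩, hp⟩ := hx
    by_cases h1 : c v (v + y) = c 0 (p + 1)
    · by_cases h2 : c v (v + z) = c 0 (p + 1)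
      · by_cases h3 : ∃ w, y < w ∧ w < z ∧ c v (v + w) = c 0 (p + 1)
        · obtain ⟨w, hw1, hw2, hw3⟩ := h3
          refine ⟨(true, v, v + (y + ((w - y - 1) + 1)), p), ?_, hp, Or.inl ⟨rfl, ?_⟩⟩
          · refine List.mem_cons_of_mem _ (List.mem_cons_of_mem _ (List.mem_cons_of_mem _ ?_))
            exact List.mem_map.2 ⟨w - y - 1, List.mem_range.2 (by omega), rfl⟩
          · show c v (v + (y + ((w - y - 1) + 1))) = c 0 (p + 1)
            rw [show y + ((w - y - 1) + 1) = w by omega]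
            exact hw3
        · push Not at h3
          have h4 := h.t3 v y z hy hyz hz (h1.trans h2.symm) fun w hw1 hw2 hw3 =>
            h3 w hw1 hw2 (hw3.trans h1)
          refine ⟨(true, v + y, v + z, p), ?_, hp, Or.inl ⟨rfl, h4.trans h1⟩⟩
          exact List.mem_cons_of_mem _ (List.mem_cons_of_mem _ (List.mem_cons_self))
      · exact ⟨(false, v, v + z, p), List.mem_cons_of_mem _ (List.mem_cons_self), hp, Or.inr ⟨rfl, h2⟩⟩
    · exact ⟨(false, v, v + y, p), List.mem_cons_self, hp, Or.inr ⟨rfl, h1⟩⟩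
  | t4 a b e d p s =>
    simp only [Cl.ok, Bool.and_eq_true, decide_eq_true_eq] at hx
    obtain ⟨⟨⟨⟨h1, h2⟩, h3⟩, h4⟩, hp⟩ := hx
    by_cases h5 : c a e = c 0 (p + 1)
    · by_cases h6 : c b d = c 0 (p + 1)
      · obtain ⟨h7, h8, h9, h10⟩ := h.t4 a b e d h1 h2 h3 h4 (h5.trans h6.symm)
        rw [h5] at h7 h8 h9 h10
        refine ⟨_, List.mem_cons_of_mem _ (List.mem_cons_of_mem _ (List.mem_cons_self)), ?_⟩
        split_ifs
        · exact ⟨hp, Or.inr ⟨rfl, h7⟩⟩
        · exact ⟨hp, Or.inr ⟨rfl, h8⟩⟩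
        · exact ⟨hp, Or.inr ⟨rfl, h9⟩⟩
        · exact ⟨hp, Or.inr ⟨rfl, h10⟩⟩
      · exact ⟨(false, b, d, p), List.mem_cons_of_mem _ (List.mem_cons_self), hp, Or.inr ⟨rfl, h6⟩⟩
    · exact ⟨(false, a, e, p), List.mem_cons_self, hp, Or.inr ⟨rfl, h5⟩⟩
  | un d =>
    simp only [Cl.ok, decide_eq_true_eq] at hx
    exact ⟨(true, 0, d + 1, d), List.mem_cons_self, hx, Or.inl ⟨rfl, rfl⟩⟩

/-- builds the tree of the clauses, then runs the chains -/
noncomputable def bld (k : ℕ) (S : List ℕ) : List Cl → Tr → ℕ → Bool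
  | [], t, n => run S t n
  | x :: L, t, n => match x.ok k with
    | true => msk k (x.lits k) 0 0 fun P N => force P fun P => force N fun N =>
        ins t n P N fun t' => force (n + 1) fun m => bld k S L t' m
    | false => false

theorem bld_sound {k : ℕ} {c : ℕ → ℕ → ℕ} (h : TCol k c) (S : List ℕ) (L : List Cl) (t : Tr) (n : ℕ)
    (ht : t.All (val k c)) (hb : bld k S L t n = true) : False := by
  induction L generalizing t n with
  | nil => exact run_sound (val k c) S t n ht hb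
  | cons x L ih =>
    cases hx : x.ok k with
    | false =>
      rw [bld, hx] at hb
      exact absurd hb (by simp)
    | true =>
      rw [bld, hx] at hb
      obtain ⟨P, N, h1, h2⟩ := msk_sound h (x.lits k) 0 0 _ (Or.inr (lits_sound h x hx)) hb
      simp only [force_eq] at h2
      obtain ⟨t', h3, h4⟩ := ins_sound _ t ht n P N h1 _ h2
      exact ih t' _ h3 h4

theorem refute (k : ℕ) (L : List Cl) (S : List ℕ) (hb : bld k S L .lf 1 = true) : ¬ ∃ c, TCol k c := by
  rintro ⟨c, hc⟩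
  exact bld_sound hc S L .lf 1 trivial hb

end Pool.Agent.Lib.MP_a966e6_co.PNU.Neg
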